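import Mathlib
import Pool.Agent.Helper90.GG.PL2
import Pool.Agent.Helper92.GG.Walk

/-! # First facts on the residue of the walk `a` (module FR0) -/

set_option autoImplicit false

namespace Pool.Agent.Helper92.GG

open MvPolynomial
open Pool.Agent.Helper49.Girth (cl mem_cl_of_mem subset_cl cl_mono cl_le_cl ty)

universe u

section residues

variable {K L : Type u} [Field K] [Field L] [Algebra K L] (w : KVal K L) {n : ℕ}
  {P : Ideal (MvPolynomial (Fin n ⊕ Fin n) K)}

theorem FR0_red_inj {T : Set L} (hT : w.Triv (cl K T)) {a b : L} (ha : a ∈ cl K T)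
    (hb : b ∈ cl K T) (h : w.red a = w.red b) : a = b := by
  by_contra hne
  have h1 : a - b ∈ cl K T := sub_mem ha hb
  have h2 := (hT _ h1).2 (sub_ne_zero.mpr hne)
  apply h2
  have h3 := PLB_red_add w (hT _ h1).1 (hT _ hb).1
  rw [sub_add_cancel, h] at h3
  exact left_eq_add.mp (by rw [add_comm] at h3; exact h3)

theorem FR0_redv_inj {T : Set L} (hT : w.Triv (cl K T)) {a b : Fin n → L}
    (ha : ∀ c, a c ∈ cl K T) (hb : ∀ c, b c ∈ cl K T) (h : w.redv a = w.redv b) : a = b := by
  funext c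
  exact FR0_red_inj w hT (ha c) (hb c) (congrFun h c)

theorem FR0_edge {T : Set L} (hT : w.Triv (cl K T)) {σ : Bool} {x y : Fin n → L}
    (hx : ∀ c, x c ∈ cl K T) (hy : ∀ c, y c ∈ cl K T) :
    Edge P σ x y ↔ Edge P σ (w.redv x) (w.redv y) := by
  obtain ⟨⟨θ, hθ⟩, -⟩ := st_PL2 K L w T hT
  exact edge_map_cl θ hx hy (fun c b hb => by rw [hθ, hb]; rfl) (fun c b hb => by
    rw [hθ, hb]; rfl)

theorem FR0_vtx {T : Set L} (hT : w.Triv (cl K T)) {σ : Bool} {x : Fin n → L}
    (hx : ∀ c, x c ∈ cl K T) : Vtx P σ x ↔ Vtx P σ (w.redv x) := by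
  obtain ⟨⟨θ, hθ⟩, -⟩ := st_PL2 K L w T hT
  exact vtx_map_cl θ hx (fun c b hb => by rw [hθ, hb]; rfl)

theorem FR0_walk {T : Set L} (hT : w.Triv (cl K T)) {σ : Bool} {r : ℕ} {v : ℕ → Fin n → L}
    (hv : ∀ i ≤ r, ∀ c, v i c ∈ cl K T) (h : IsWalk P σ r v) :
    IsWalk P σ r (fun i => w.redv (v i)) := by
  intro i hi
  exact (FR0_edge w hT (hv i hi.le) (hv (i + 1) hi)).mp (h i hi)

theorem FR0_nb {T : Set L} (hT : w.Triv (cl K T)) {r : ℕ} {v : ℕ → Fin n → L}
    (hv : ∀ i ≤ r, ∀ c, v i c ∈ cl K T) (h : NB r v) : NB r (fun i => w.redv (v i)) := by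
  intro i hi he
  exact h i hi (FR0_redv_inj w hT (hv i (by omega)) (hv (i + 2) hi) he)

/-- the residue map on a trivially valued subfield keeps `K`-relations -/
theorem FR0_red_conj {T : Set L} (hT : w.Triv (cl K T)) {ι : Type} (e : ι → L)
    (he : ∀ i, e i ∈ cl K T) : Conj K e (fun i => w.red (e i)) := by
  intro f
  have h1 := PLB_red_aeval w e (fun i => (hT _ (he i)).1) f
  have h2 : aeval e f ∈ cl K T := Pool.Agent.Helper49.Girth.aeval_mem _ e he f
  rw [← h1.2]
  constructor
  · intro h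
    rw [h]
    exact PLB_red_zero w
  · intro h
    by_contra hne
    exact (hT _ h2).2 hne h

/-- residues are specializations -/
theorem FR0_red_spec {ι : Type} (e : ι → L) (he : ∀ i, e i ∈ w.V) :
    Spec K e (fun i => w.red (e i)) := by
  intro f hf
  rw [← (PLB_red_aeval w e he f).2, hf]
  exact PLB_red_zero w

end residues

section good

variable {K L : Type u} [Field K] [Field L] [Algebra K L] {w : KVal K L} {n : ℕ}
  {s : Set L} {x v : Fin n → L}

theorem FR0_spec (hg : Good s x v w) {κ : Type} (e : κ → L) (he : ∀ i, e i ∈ cl K s) :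
    Spec K (Sum.elim (w.redv v) (fun i => w.red (e i))) (Sum.elim x e) := by
  intro f hf
  let g : MvPolynomial (Fin n) (cl K s) :=
    aeval (Sum.elim X (fun i => C (⟨e i, he i⟩ : cl K s))) f
  have hg1 : ∀ z : Fin n → L, aeval z g = aeval (Sum.elim z e) f := by
    intro z
    have : ∀ f : MvPolynomial (Fin n ⊕ κ) K,
        aeval z (aeval (Sum.elim X (fun i => C (⟨e i, he i⟩ : cl K s))) f :
          MvPolynomial (Fin n) (cl K s)) = aeval (Sum.elim z e) f := by
      intro f
      induction f using MvPolynomial.induction_on with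
      | C c =>
        rw [aeval_C, aeval_C]
        rw [MvPolynomial.algebraMap_apply, aeval_C]
        exact (IsScalarTower.algebraMap_apply K (cl K s) L c).symm
      | add p q hp hq => rw [map_add, map_add, map_add, hp, hq]
      | mul_X p i hp =>
        rw [map_mul, map_mul, map_mul, hp, aeval_X, aeval_X]
        congr 1
        rcases i with i | i
        · rw [Sum.elim_inl, Sum.elim_inl, aeval_X]
        · rw [Sum.elim_inr, Sum.elim_inr, aeval_C]
          rfl
    exact this f
  rw [← hg1]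
  apply hg.spec
  rw [hg1]
  have h1 := PLB_red_aeval w (Sum.elim v e) (by
    rintro (i | i)
    · exact hg.mem i
    · exact (hg.triv _ (he i)).1) f
  rw [h1.2]
  have h2 : (fun i => w.red (Sum.elim v e i))
      = Sum.elim (w.redv v) (fun i => w.red (e i)) := by
    funext i
    rcases i with i | i <;> rfl
  rw [h2]
  exact hf

/-- the residue of `v` is not algebraic over the residues of `s` -/
theorem FR0_not_mem [IsAlgClosed L] (hg : Good s x v w) :
    ∃ c, w.redv v c ∉ cl K (w.red '' s) := by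
  obtain ⟨-, -, -, h4⟩ := st_PL2 K L w s hg.triv
  by_contra hcon
  push Not at hcon
  apply hg.ne
  funext c
  obtain ⟨b, hb, hbc⟩ := h4 inferInstance _ (hcon c)
  have h5 := hg.spec (X c - C (⟨b, hb⟩ : cl K s)) (by
    rw [map_sub, aeval_X, aeval_C]
    change w.red (v c - b) = 0
    have hbV := (hg.triv b hb).1
    have h6 := PLB_red_add w (w.V.sub_mem (hg.mem c) hbV) hbV
    rw [sub_add_cancel, hbc] at h6
    have h7 : w.redv v c = w.red (v c) := rfl
    rw [h7] at h6
    exact left_eq_add.mp (by rw [add_comm] at h6; exact h6))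
  rw [map_sub, aeval_X, aeval_C] at h5
  have h6 : x c = b := sub_eq_zero.mp h5
  rw [← hbc, ← h6]
  rfl

end good

section tail

variable {K : Type u} [Field K] [IsAlgClosed K] {n m : ℕ} (S : SysT K n m)
  {L : Type u} [Field L] [Algebra K L] {ρ : Bool} {s : Set L} {x v : Fin n → L}
  {c a : ℕ → Fin n → L}

theorem FR0_cmem (ht : Tail S ρ s x v c a) (i : ℕ) (hi : i ≤ 2 * m - 1) (d : Fin n) :
    c i d ∈ cl K s := ht.sub (coord_mem_pts c (Set.mem_Iic.mpr hi) d)

theorem FR0_sub_rk (ht : Tail S ρ s x v c a) (i r : ℕ) (hir : i + r ≤ 2 * m - 1) :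
    m + r ≤ rk K (pts c (Set.Icc i (i + r))) := by
  have h2 := S.two_le
  have h3m := ht.gen
  -- backwards from `i`
  have h1 := S.toSys.rk_walk_le' (r := i) (ht.walk.mono (by omega))
    (A := pts c (Set.Icc i (i + r))) (pts_Icc_finite c _ _)
    (fun b hb => mem_cl_of_mem (range_subset_pts c (Set.mem_Icc.mpr ⟨le_rfl, by omega⟩) hb))
  -- forwards from `i + r`
  have h4 := S.toSys.rk_walk_le (r := 2 * m - 1 - (i + r))
    (ht.walk.shift (i + r) (r' := 2 * m - 1 - (i + r)) (by omega))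
    (A := pts c (Set.Icc i (i + r)) ∪ pts c (Set.Iic i))
    ((pts_Icc_finite c _ _).union (pts_Iic_finite c _))
    (fun b hb => mem_cl_of_mem (Or.inl
      (range_subset_pts c (Set.mem_Icc.mpr ⟨by omega, by omega⟩) hb)))
  have h5 : rk K (pts c (Set.Iic (2 * m - 1))) ≤
      rk K (pts c (Set.Icc i (i + r)) ∪ pts c (Set.Iic i) ∪
        pts (fun j => c (i + r + j)) (Set.Iic (2 * m - 1 - (i + r)))) := by
    refine rk_mono (((pts_Icc_finite c _ _).union (pts_Iic_finite c _)).union
      (pts_Iic_finite _ _)) ?_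
    intro b hb
    obtain ⟨j, hj, d, rfl⟩ := mem_pts.mp hb
    have hj' : j ≤ 2 * m - 1 := hj
    rcases Nat.lt_or_ge j i with h6 | h6
    · exact Or.inl (Or.inr (coord_mem_pts c (Set.mem_Iic.mpr h6.le) d))
    · rcases Nat.lt_or_ge (i + r) j with h7 | h7
      · refine Or.inr (mem_pts.mpr ⟨j - (i + r), ?_, d, ?_⟩)
        · exact Set.mem_Iic.mpr (by omega)
        · rw [show i + r + (j - (i + r)) = j by omega]
      · exact Or.inl (Or.inl (coord_mem_pts c (Set.mem_Icc.mpr ⟨h6, h7⟩) d))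
  omega

/-- subwalks of `c` are non-backtracking -/
theorem FR0_sub_nb (hGNB : ST_GNB.{u}) (ht : Tail S ρ s x v c a) (i r : ℕ)
    (hir : i + r ≤ 2 * m - 1) : NB r (fun j => c (i + j)) := by
  apply hGNB K n m 1 S.toSys L (ty ρ i) r _ (ht.walk.shift i hir)
  rw [pts_shift]
  have := FR0_sub_rk S ht i r hir
  omega

theorem FR0_sub_ends (hGNB : ST_GNB.{u}) (hENDS : ST_ENDS.{u}) (ht : Tail S ρ s x v c a)
    (i r : ℕ) (hr : r ≤ m) (hir : i + r ≤ 2 * m - 1) :
    ∀ j ≤ r, ∀ d, c (i + j) d ∈ cl K (Set.range (c i) ∪ Set.range (c (i + r))) :=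
  hENDS K n m 1 S.toSys L (ty ρ i) r (fun j => c (i + j)) hr (ht.walk.shift i hir)
    (FR0_sub_nb S hGNB ht i r hir)

theorem FR0_sub_rk_ends (hGNB : ST_GNB.{u}) (hENDS : ST_ENDS.{u}) (ht : Tail S ρ s x v c a)
    (i r : ℕ) (hr : r ≤ m) (hir : i + r ≤ 2 * m - 1) :
    m + r ≤ rk K (Set.range (c i) ∪ Set.range (c (i + r))) := by
  refine (FR0_sub_rk S ht i r hir).trans (rk_le_of_subset_cl
    ((Set.finite_range _).union (Set.finite_range _)) ?_)
  intro b hb
  obtain ⟨j, hj, d, rfl⟩ := mem_pts.mp hb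
  obtain ⟨hj1, hj2⟩ := Set.mem_Icc.mp hj
  have := FR0_sub_ends S hGNB hENDS ht i r hr hir (j - i) (by omega) d
  rw [show i + (j - i) = j by omega] at this
  exact this

end tail

/-- (FR0) first facts on the residue of the walk `a` -/
theorem st_FR0 (hENDS : ST_ENDS.{u}) (hGNB : ST_GNB.{u}) : ST_FR0.{u} := by
  intro K _ _ n m S L _ _ _ ρ s x u v c a w hmov htail hgood
  have hm2 := S.two_le
  obtain ⟨-, hrk, hcl, -⟩ := st_PL2 K L w s hgood.triv
  have hcs := FR0_cmem S htail
  set q := c (2 * m - 1) with hq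
  have hqs : ∀ d, q d ∈ cl K s := hcs _ le_rfl
  -- the rank of `x, q`
  have hxq : 2 * m ≤ rk K (Set.range x ∪ Set.range q) := by
    have := FR0_sub_rk_ends S hGNB hENDS htail (m - 1) m le_rfl (by omega)
    rw [htail.cen, show m - 1 + m = 2 * m - 1 by omega, ← hq] at this
    omega
  have hvx : rk K (Set.range v) = m := by
    have := S.toSys.rk_vtx hmov.uv.vtx_right
    omega
  have hqx : rk K (Set.range q) = m := by
    have := S.toSys.rk_vtx (htail.walk.vtx (by omega) (le_refl (2 * m - 1)))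
    rw [← hq] at this
    omega
  have hspec := FR0_spec hgood q hqs
  have hfin : (Set.range v ∪ Set.range q).Finite := (Set.finite_range _).union (Set.finite_range _)
  -- triviality on `cl (v, q)`
  have hT : w.Triv (cl K (Set.range v ∪ Set.range q)) := by
    apply st_PL1 K L w _ hfin
    · rintro b (⟨d, rfl⟩ | ⟨d, rfl⟩)
      · exact hgood.mem d
      · exact (hgood.triv _ (hqs d)).1
    · have h1 := rk_union_le (K := K) (Set.finite_range v) (Set.finite_range q)
      have h2 := hspec.rk_le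
      rw [Set.Sum.elim_range, Set.Sum.elim_range] at h2
      rw [Set.image_union, image_range, image_range]
      have h3 : rk K (Set.range x ∪ Set.range q) ≤
          rk K (Set.range (fun d => w.red (v d)) ∪ Set.range (fun d => w.red (q d))) := h2
      omega
  have haT : ∀ i ≤ m, ∀ d, a i d ∈ cl K (Set.range v ∪ Set.range q) := by
    intro i hi d
    have := hENDS K n m 1 S.toSys L _ m a le_rfl htail.awalk htail.anb i hi d
    rw [htail.a0, htail.am] at this
    exact this
  have hwalk := FR0_walk w hT haT htail.awalk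
  refine ⟨hT, fun i hi d => (hT _ (haT i hi d)).1, hwalk, FR0_nb w hT haT htail.anb, ?_⟩
  intro j hj1 hjm
  -- the set `C_j ∪ q`
  set Cj := pts c (Set.Icc (m - j) (m - 1)) with hCj
  have hCfin : Cj.Finite := pts_Icc_finite c _ _
  have hCq : (Cj ∪ Set.range q).Finite := hCfin.union (Set.finite_range _)
  have hCqs : Cj ∪ Set.range q ⊆ cl K s := by
    rintro b (hb | ⟨d, rfl⟩)
    · obtain ⟨i, hi, d, rfl⟩ := mem_pts.mp hb
      exact hcs i (by have := (Set.mem_Icc.mp hi).2; omega) d
    · exact hqs d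
  have h1 : 2 * m + j ≤ rk K (Cj ∪ Set.range q) + 1 := by
    have h2 := S.toSys.rk_walk_le' (r := m - j) (htail.walk.mono (by omega))
      (A := Cj ∪ Set.range q) hCq
      (fun b hb => mem_cl_of_mem (Or.inl
        (range_subset_pts c (Set.mem_Icc.mpr ⟨le_rfl, by omega⟩) hb)))
    have h3 : rk K (pts c (Set.Iic (2 * m - 1))) ≤
        rk K (Cj ∪ Set.range q ∪ pts c (Set.Iic (m - j))) := by
      refine rk_le_of_subset_cl (hCq.union (pts_Iic_finite c _)) ?_
      intro b hb
      obtain ⟨i, hi, d, rfl⟩ := mem_pts.mp hb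
      have hi' : i ≤ 2 * m - 1 := hi
      rcases Nat.lt_or_ge i (m - j) with h4 | h4
      · exact mem_cl_of_mem (Or.inr (coord_mem_pts c (Set.mem_Iic.mpr h4.le) d))
      · rcases Nat.lt_or_ge i (m - 1) with h5 | h5
        · exact mem_cl_of_mem (Or.inl (Or.inl (coord_mem_pts c
            (Set.mem_Icc.mpr ⟨h4, h5.le⟩) d)))
        · have h6 := FR0_sub_ends S hGNB hENDS htail (m - 1) m le_rfl (by omega)
            (i - (m - 1)) (by omega) d
          rw [show m - 1 + (i - (m - 1)) = i by omega,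
            show m - 1 + m = 2 * m - 1 by omega] at h6
          refine cl_mono ?_ h6
          rintro b' (hb' | hb')
          · exact Or.inl (Or.inl (range_subset_pts c
              (Set.mem_Icc.mpr ⟨by omega, le_rfl⟩) hb'))
          · exact Or.inl (Or.inr hb')
    have h4 := htail.gen
    omega
  -- residues
  obtain ⟨d₀, hd₀⟩ := FR0_not_mem hgood
  have h2 : rk K (w.red '' (Cj ∪ Set.range q)) = rk K (Cj ∪ Set.range q) := hrk _ hCq hCqs
  have h3 : rk K (insert (w.redv v d₀) (w.red '' (Cj ∪ Set.range q)))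
      = rk K (w.red '' (Cj ∪ Set.range q)) + 1 := by
    refine rk_insert_of_notMem (hCq.image _) (fun h => hd₀ ?_)
    have h4 : cl K (w.red '' (Cj ∪ Set.range q)) ≤ cl K (w.red '' s) := by
      apply cl_le_cl
      rintro _ ⟨b, hb, rfl⟩
      exact hcl s (subset_cl s) b (hCqs hb)
    exact h4 h
  set W := w.red '' (Cj ∪ pts a (Set.Iic (m - j))) with hW
  have hWfin : W.Finite := (hCfin.union (pts_Iic_finite a _)).image _
  have h4 : rk K (W ∪ pts (fun i => w.redv (a (m - j + i))) (Set.Iic j)) ≤ rk K W + j * 1 :=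
    S.toSys.rk_walk_le (r := j)
    (hwalk.shift (m - j) (r' := j) (by omega)) (A := W) hWfin (by
      rintro _ ⟨d, rfl⟩
      exact mem_cl_of_mem ⟨a (m - j) d, Or.inr (coord_mem_pts a
        (Set.mem_Iic.mpr le_rfl) d), rfl⟩)
  have h5 : rk K (insert (w.redv v d₀) (w.red '' (Cj ∪ Set.range q))) ≤
      rk K (W ∪ pts (fun i => w.redv (a (m - j + i))) (Set.Iic j)) := by
    refine rk_mono (hWfin.union (pts_Iic_finite _ _)) ?_
    rintro b (rfl | ⟨b, hb | ⟨d, rfl⟩, rfl⟩)
    · refine Or.inl ⟨a 0 d₀, Or.inr (coord_mem_pts a (Set.mem_Iic.mpr (Nat.zero_le _)) d₀), ?_⟩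
      rw [htail.a0]
      rfl
    · exact Or.inl ⟨b, Or.inl hb, rfl⟩
    · refine Or.inr (mem_pts.mpr ⟨j, Set.mem_Iic.mpr le_rfl, d, ?_⟩)
      change w.red (a (m - j + j) d) = _
      rw [show m - j + j = m by omega, htail.am]
  omega

end Pool.Agent.Helper92.GG
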