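import Mathlib
import Pool.Agent.Helper90.GG.PL2

/-! # Existence and extension of places (modules PL4, PL6, PL7) -/

set_option autoImplicit false

namespace Pool.Agent.Helper92.GG

open MvPolynomial
open Pool.Agent.Helper49.Girth (cl ty)

universe u

theorem PL4_val_lt_of_nonunit {L : Type u} [Field L] (B : ValuationSubring L) {a : L}
    (h : a ∈ B.nonunits) : B.valuation a < 1 := h

/-- existence of places -/
theorem st_PL4 : ST_PL4.{u} := by
  intro K L _ _ _ s ι y y' hy' hspec
  set M := cl K s with hM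
  let ev : MvPolynomial ι M →+* L := (aeval (R := M) y : MvPolynomial ι M →ₐ[M] L)
  let ev' : MvPolynomial ι M →+* L := (aeval (R := M) y' : MvPolynomial ι M →ₐ[M] L)
  let J : Ideal (MvPolynomial ι M) := RingHom.ker ev'
  let I : Ideal ev.range := J.map ev.rangeRestrict
  have hsurj : Function.Surjective ev.rangeRestrict := ev.rangeRestrict_surjective
  have hI : I ≠ ⊤ := by
    intro htop
    have h1 : (1 : ev.range) ∈ I := by rw [htop]; trivial
    rw [Ideal.mem_map_iff_of_surjective _ hsurj] at h1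
    obtain ⟨f, hf, hf1⟩ := h1
    have h2 : ev f = 1 := congrArg Subtype.val hf1
    have h3 : aeval y (f - 1) = 0 := by
      rw [map_sub, map_one]
      exact sub_eq_zero.mpr h2
    have h4 := hspec _ h3
    rw [map_sub, map_one] at h4
    have h5 : aeval y' f = 0 := hf
    rw [h5, zero_sub, neg_eq_zero] at h4
    exact one_ne_zero h4
  obtain ⟨B, hB1, hB2⟩ := Ideal.image_subset_nonunits_valuationSubring I hI
  have hMB : ∀ c : M, (c : L) ∈ B := by
    intro c
    apply hB1
    exact ⟨C c, by change aeval y (C c) = _; rw [aeval_C]; rfl⟩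
  have hyB : ∀ i, y i ∈ B := by
    intro i
    apply hB1
    exact ⟨X i, by change aeval y (X i) = _; rw [aeval_X]⟩
  let w : KVal K L := ⟨B, fun c => hMB (algebraMap K M c)⟩
  refine ⟨w, PLB_triv_of_subset w M (fun a ha => hMB ⟨a, ha⟩), fun i => ⟨hyB i, ?_⟩⟩
  have h1 : B.valuation (y i - y' i) < 1 := by
    apply PL4_val_lt_of_nonunit
    apply hB2
    refine ⟨ev.rangeRestrict (X i - C ⟨y' i, hy' i⟩), Ideal.mem_map_of_mem _ ?_, ?_⟩
    · change aeval y' (X i - C (⟨y' i, hy' i⟩ : M) : MvPolynomial ι M) = 0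
      rw [map_sub, aeval_X, aeval_C]
      exact sub_self _
    · change aeval y (X i - C (⟨y' i, hy' i⟩ : M) : MvPolynomial ι M) = _
      rw [map_sub, aeval_X, aeval_C]
      rfl
  have hy'B : y' i ∈ B := hMB ⟨y' i, hy' i⟩
  have hsubB : y i - y' i ∈ B := B.sub_mem (hyB i) hy'B
  have h2 : w.red (y i - y' i) = 0 := (PLB_red_eq_zero_iff w hsubB).mpr h1
  have h3 := PLB_red_add w hsubB hy'B
  rw [sub_add_cancel, h2, zero_add] at h3
  exact h3

section ext

variable {K L L' : Type u} [Field K] [Field L] [Field L'] [Algebra K L] [Algebra K L']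
  [Algebra L L'] [IsScalarTower K L L']

theorem PL6_exists (w : KVal K L) : ∃ w' : KVal K L', w.Ext w' := by
  let φ : w.V →+* L' := (algebraMap L L').comp w.V.subtype
  have hφ : Function.Injective φ := (algebraMap L L').injective.comp Subtype.val_injective
  have hsurj : Function.Surjective φ.rangeRestrict := φ.rangeRestrict_surjective
  let I : Ideal φ.range := (IsLocalRing.maximalIdeal w.V).map φ.rangeRestrict
  have hI : I ≠ ⊤ := by
    intro htop
    have h1 : (1 : φ.range) ∈ I := by rw [htop]; trivial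
    rw [Ideal.mem_map_iff_of_surjective _ hsurj] at h1
    obtain ⟨f, hf, hf1⟩ := h1
    have h2 : φ f = 1 := congrArg Subtype.val hf1
    have h3 : f = 1 := hφ (h2.trans (map_one φ).symm)
    rw [h3] at hf
    exact (Ideal.ne_top_iff_one _).mp (IsLocalRing.maximalIdeal.isMaximal w.V).ne_top hf
  obtain ⟨B, hB1, hB2⟩ := Ideal.image_subset_nonunits_valuationSubring I hI
  have hin : ∀ a ∈ w.V, algebraMap L L' a ∈ B := fun a ha => hB1 ⟨⟨a, ha⟩, rfl⟩
  refine ⟨⟨B, fun c => ?_⟩, fun a => ⟨fun h => ?_, hin a⟩⟩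
  · rw [IsScalarTower.algebraMap_apply K L L']
    exact hin _ (w.hK c)
  · by_contra ha
    have ha0 : a ≠ 0 := by
      rintro rfl
      exact ha w.V.zero_mem
    have hv : 1 < w.V.valuation a := by
      rw [← not_le, w.V.valuation_le_one_iff]
      exact ha
    have hv' : w.V.valuation a⁻¹ < 1 := by
      rw [map_inv₀]
      exact inv_lt_one_of_one_lt₀ hv
    have hmem : a⁻¹ ∈ w.V := (w.V.valuation_le_one_iff _).mp hv'.le
    have h1 : (⟨a⁻¹, hmem⟩ : w.V) ∈ IsLocalRing.maximalIdeal w.V :=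
      (w.V.valuation_lt_one_iff ⟨a⁻¹, hmem⟩).mpr hv'
    have h2 : B.valuation (algebraMap L L' a⁻¹) < 1 := by
      apply PL4_val_lt_of_nonunit
      apply hB2
      exact ⟨φ.rangeRestrict ⟨a⁻¹, hmem⟩, Ideal.mem_map_of_mem _ h1, rfl⟩
    have h3 : B.valuation (algebraMap L L' a) ≤ 1 := (B.valuation_le_one_iff _).mpr h
    have h4 : algebraMap L L' a * algebraMap L L' a⁻¹ = 1 := by
      rw [← map_mul, mul_inv_cancel₀ ha0, map_one]
    have h5 : B.valuation (algebraMap L L' a) * B.valuation (algebraMap L L' a⁻¹) = 1 := by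
      rw [← map_mul, h4, map_one]
    have h6 : B.valuation (algebraMap L L' a) * B.valuation (algebraMap L L' a⁻¹) < 1 :=
      lt_of_le_of_lt (mul_le_of_le_one_left' h3) h2
    rw [h5] at h6
    exact lt_irrefl _ h6

omit [IsScalarTower K L L'] in
theorem PL6_le {w : KVal K L} {w' : KVal K L'} (h : w.Ext w') (a b : L) :
    w'.V.valuation (algebraMap L L' a) ≤ w'.V.valuation (algebraMap L L' b) ↔
      w.V.valuation a ≤ w.V.valuation b := by
  by_cases hb : b = 0
  · rw [hb, map_zero, map_zero, map_zero, le_zero_iff, le_zero_iff, map_eq_zero, map_eq_zero,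
      map_eq_zero]
  · have hb1 : w.V.valuation b ≠ 0 := (Valuation.ne_zero_iff _).mpr hb
    have hb' : algebraMap L L' b ≠ 0 := (map_ne_zero (algebraMap L L')).mpr hb
    have hb1' : w'.V.valuation (algebraMap L L' b) ≠ 0 := (Valuation.ne_zero_iff _).mpr hb'
    have h1 : w.V.valuation a ≤ w.V.valuation b ↔ w.V.valuation (a / b) ≤ 1 := by
      rw [map_div₀, div_le_one₀ (zero_lt_iff.mpr hb1)]
    have h2 : w'.V.valuation (algebraMap L L' a) ≤ w'.V.valuation (algebraMap L L' b) ↔
        w'.V.valuation (algebraMap L L' (a / b)) ≤ 1 := by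
      rw [map_div₀ (algebraMap L L'), map_div₀, div_le_one₀ (zero_lt_iff.mpr hb1')]
    rw [h1, h2, w.V.valuation_le_one_iff, w'.V.valuation_le_one_iff]
    exact h (a / b)

omit [IsScalarTower K L L'] in
theorem PL6_eq {w : KVal K L} {w' : KVal K L'} (h : w.Ext w') (a b : L)
    (he : w'.V.valuation (algebraMap L L' a) = w'.V.valuation (algebraMap L L' b)) :
    w.V.valuation a = w.V.valuation b :=
  le_antisymm ((PL6_le h a b).mp he.le) ((PL6_le h b a).mp he.ge)

/-- the map of the valuation rings -/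
def PL6_map {w : KVal K L} {w' : KVal K L'} (h : w.Ext w') : w.V →+* w'.V where
  toFun a := ⟨algebraMap L L' a, (h a).mpr a.2⟩
  map_one' := Subtype.ext (map_one _)
  map_mul' _ _ := Subtype.ext (map_mul _ _ _)
  map_zero' := Subtype.ext (map_zero _)
  map_add' _ _ := Subtype.ext (map_add _ _ _)

omit [IsScalarTower K L L'] in
theorem PL6_ker {w : KVal K L} {w' : KVal K L'} (h : w.Ext w') (a : w.V)
    (ha : a ∈ IsLocalRing.maximalIdeal w.V) : PLB_res w' (PL6_map h a) = 0 := by
  rw [PLB_res_eq_zero_iff]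
  have h1 : w.V.valuation (a : L) < 1 := (w.V.valuation_lt_one_iff a).mp ha
  rw [← not_le] at h1 ⊢
  intro h2
  apply h1
  have h3 := (PL6_le h 1 (a : L)).mp (by rw [map_one, map_one]; exact h2)
  rwa [map_one] at h3

/-- the map of the residue fields -/
noncomputable def PL6_j {w : KVal K L} {w' : KVal K L'} (h : w.Ext w') : w.κ →ₐ[K] w'.κ where
  toRingHom := Ideal.Quotient.lift (IsLocalRing.maximalIdeal w.V)
    ((PLB_res w').comp (PL6_map h)) (PL6_ker h)
  commutes' c := by
    change PLB_res w' (PL6_map h (w.incl c)) = PLB_res w' (w'.incl c)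
    congr 1
    apply Subtype.ext
    change algebraMap L L' (algebraMap K L c) = algebraMap K L' c
    exact (IsScalarTower.algebraMap_apply K L L' c).symm

theorem PL6_j_red {w : KVal K L} {w' : KVal K L'} (h : w.Ext w') (a : L) (ha : a ∈ w.V) :
    PL6_j h (w.red a) = w'.red (algebraMap L L' a) := by
  rw [PLB_red_mk w ha, PLB_red_mk w' ((h a).mpr ha)]
  rfl

end ext

/-- extension of places -/
theorem st_PL6 : ST_PL6.{u} := by
  intro K L L' _ _ _ _ _ _ _ w
  refine ⟨PL6_exists w, fun w' h => ⟨⟨PL6_j h, PL6_j_red h⟩, fun a b A B he => ?_⟩⟩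
  rw [← map_pow, ← map_pow] at he ⊢
  rw [← map_pow, ← map_pow] at he
  exact PL6_eq h _ _ he

/-- the residue of a polynomial expression over a trivially valued field -/
theorem PL7_red_aeval {K L : Type u} [Field K] [Field L] [Algebra K L] (w : KVal K L)
    (F : IntermediateField K L) (hF : ∀ a ∈ F, a ∈ w.V) {F' : IntermediateField K w.κ}
    (θ : F →+* F') (hθ : ∀ a : F, (θ a : w.κ) = w.red a) {ι : Type} (y : ι → L)
    (hy : ∀ i, y i ∈ w.V) (f : MvPolynomial ι F) :
    aeval y f ∈ w.V ∧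
      w.red (aeval y f) = aeval (R := F') (fun i => w.red (y i)) (MvPolynomial.map θ f) := by
  induction f using MvPolynomial.induction_on with
  | C c =>
    rw [aeval_C, MvPolynomial.map_C, aeval_C]
    exact ⟨hF _ c.2, (hθ c).symm⟩
  | add p q hp hq =>
    rw [map_add, map_add, map_add]
    exact ⟨w.V.add_mem _ _ hp.1 hq.1, by rw [PLB_red_add w hp.1 hq.1, hp.2, hq.2]⟩
  | mul_X p i hp =>
    rw [map_mul, map_mul, map_mul, aeval_X, MvPolynomial.map_X, aeval_X]
    exact ⟨w.V.mul_mem _ _ hp.1 (hy i), by rw [PLB_red_mul w hp.1 (hy i), hp.2]⟩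

/-- specializations in the residue field -/
theorem st_PL7 : ST_PL7.{u} := by
  intro K L _ _ _ _ w s hs ι y x hy hx hyx g hg
  obtain ⟨⟨θ, hθ⟩, -, h3, h4⟩ := st_PL2 K L w s hs
  have hF : ∀ a ∈ cl K s, a ∈ w.V := fun a ha => (hs a ha).1
  have hmem : ∀ a : cl K s, w.red a ∈ cl K (w.red '' s) := fun a =>
    h3 s (Pool.Agent.Helper49.Girth.subset_cl s) a a.2
  let θ' : cl K s →+* cl K (w.red '' s) :=
    { toFun := fun a => ⟨w.red a, hmem a⟩
      map_one' := Subtype.ext (PLB_red_one w)
      map_mul' := fun a b => Subtype.ext (PLB_red_mul w (hF a a.2) (hF b b.2))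
      map_zero' := Subtype.ext (PLB_red_zero w)
      map_add' := fun a b => Subtype.ext (PLB_red_add w (hF a a.2) (hF b b.2)) }
  have hsurj : Function.Surjective θ' := by
    intro b
    obtain ⟨a, ha, hab⟩ := h4 inferInstance b b.2
    exact ⟨⟨a, ha⟩, Subtype.ext hab⟩
  obtain ⟨f, rfl⟩ := MvPolynomial.map_surjective θ' hsurj g
  have e1 := PL7_red_aeval w (cl K s) hF θ' (fun _ => rfl) y hy f
  have e2 := PL7_red_aeval w (cl K s) hF θ' (fun _ => rfl) x (fun i => hF _ (hx i)) f
  rw [← e2.2, hyx f (by rw [e1.2]; exact hg)]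
  exact PLB_red_zero w

end Pool.Agent.Helper92.GG
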