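import Mathlib
import Pool.Agent.Helper56.GG.PL4
import Pool.Agent.Helper56.GG.FR0

/-! # Zeros of `g_j` give walks in the residue field (module ZERO) -/

set_option autoImplicit false

namespace Pool.Agent.Helper92.GG

open MvPolynomial
open Pool.Agent.Helper49.Girth (cl mem_cl_of_mem subset_cl cl_mono cl_le_cl ty ty_add)

universe u

/-- transport of a walk by an embedding of a closure -/
theorem ZERO_transport {K L L' : Type u} [Field K] [Field L] [Algebra K L] [Field L']
    [Algebra K L'] {n : ℕ} {P : Ideal (MvPolynomial (Fin n ⊕ Fin n) K)} {s : Set L}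
    (θ : cl K s →ₐ[K] L') {σ : Bool} {r : ℕ} {v : ℕ → Fin n → L}
    (hv : ∀ i ≤ r, ∀ c, v i c ∈ cl K s) (hw : IsWalk P σ r v) (hn : NB r v) :
    ∃ v' : ℕ → Fin n → L', (∀ i ≤ r, ∀ c (b : cl K s), (b : L) = v i c → θ b = v' i c) ∧
      IsWalk P σ r v' ∧ NB r v' := by
  classical
  let v' : ℕ → Fin n → L' := fun i c => if h : v i c ∈ cl K s then θ ⟨v i c, h⟩ else 0
  have hv' : ∀ i ≤ r, ∀ c (b : cl K s), (b : L) = v i c → θ b = v' i c := by
    intro i hi c b hb
    have e : v' i c = θ ⟨v i c, hv i hi c⟩ := dif_pos (hv i hi c)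
    rw [e]
    congr 1
    exact Subtype.ext hb
  refine ⟨v', hv', fun i hi => ?_, fun i hi he => ?_⟩
  · exact (edge_map_cl θ (hv i hi.le) (hv (i + 1) hi) (hv' i hi.le) (hv' (i + 1) hi)).mp
      (hw i hi)
  · apply hn i hi
    funext c
    have h1 := hv' i (by omega) c ⟨v i c, hv i (by omega) c⟩ rfl
    have h2 := hv' (i + 2) hi c ⟨v (i + 2) c, hv (i + 2) hi c⟩ rfl
    rw [he, ← h2] at h1
    exact congrArg Subtype.val (θ.injective h1)

/-- (ZERO) -/
theorem st_ZERO (hENDS : ST_ENDS.{u}) (hGNB : ST_GNB.{u}) (hCONJ : ST_CONJ.{u}) :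
    ST_ZERO.{u} := by
  intro K _ _ n m S D L _ _ _ ρ s x u v c a w hmov htail hgood j hj1 hjm hzero
  have hm2 := S.two_le
  obtain ⟨hTriv, haV, hwalk, hnb, -⟩ :=
    st_FR0 hENDS hGNB K n m S L ρ s x u v c a w hmov htail hgood
  obtain ⟨-, hrk, hcl, -⟩ := st_PL2 K L w s hgood.triv
  have hcs := FR0_cmem S htail
  have hres : IsAlgClosed w.κ := st_PL5 K L w
  -- the second place
  have hxs : ∀ d, w.redv x d ∈ cl K (w.red '' s) := fun d => hcl s (subset_cl s) _ (hmov.xs d)
  have hsp : Spec (cl K (w.red '' s)) (w.redv v) (w.redv x) :=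
    st_PL7 K L w s hgood.triv (Fin n) v x hgood.mem hmov.xs hgood.spec
  obtain ⟨w2, hw2, hw2v⟩ := st_PL4 K w.κ (w.red '' s) (Fin n) (w.redv v) (w.redv x) hxs hsp
  have hvx2 : w2.redv (w.redv v) = w2.redv (w.redv x) := funext fun d => (hw2v d).2
  have hcs2 : ∀ i ≤ 2 * m - 1, ∀ d, w.redv (c i) d ∈ cl K (w.red '' s) :=
    fun i hi d => hcl s (subset_cl s) _ (hcs i hi d)
  obtain ⟨-, hrk2, hcl2, -⟩ := st_PL2 K w.κ w2 (w.red '' s) hw2
  -- ranks in the residue field
  set q := c (2 * m - 1) with hq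
  have hqs2 : ∀ d, w.redv q d ∈ cl K (w.red '' s) := hcs2 _ le_rfl
  have hxq : 2 * m ≤ rk K (Set.range x ∪ Set.range q) := by
    have := FR0_sub_rk_ends S hGNB hENDS htail (m - 1) m le_rfl (by omega)
    rw [htail.cen, show m - 1 + m = 2 * m - 1 by omega, ← hq] at this
    omega
  have hxqf : (Set.range x ∪ Set.range q).Finite := (Set.finite_range _).union (Set.finite_range _)
  have hxq2 : 2 * m ≤ rk K (Set.range (w.redv x) ∪ Set.range (w.redv q)) := by
    have h1 := hrk (Set.range x ∪ Set.range q) hxqf (by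
      rintro b (⟨d, rfl⟩ | ⟨d, rfl⟩)
      · exact hmov.xs d
      · exact hcs _ le_rfl d)
    rw [Set.image_union, image_range, image_range] at h1
    have h2 : rk K (Set.range (w.redv x) ∪ Set.range (w.redv q))
        = rk K (Set.range x ∪ Set.range q) := h1
    omega
  have hxq3 : 2 * m ≤ rk K (Set.range (w2.redv (w.redv x)) ∪ Set.range (w2.redv (w.redv q))) := by
    have h1 := hrk2 (Set.range (w.redv x) ∪ Set.range (w.redv q))
      ((Set.finite_range _).union (Set.finite_range _)) (by
      rintro b (⟨d, rfl⟩ | ⟨d, rfl⟩)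
      · exact hxs d
      · exact hqs2 d)
    rw [Set.image_union, image_range, image_range] at h1
    have h2 : rk K (Set.range (w2.redv (w.redv x)) ∪ Set.range (w2.redv (w.redv q)))
        = rk K (Set.range (w.redv x) ∪ Set.range (w.redv q)) := h1
    omega
  -- vertices in the residue field
  have hwalk0 : w.redv (a 0) = w.redv v := by rw [htail.a0]
  have hwalkm : w.redv (a m) = w.redv q := by rw [htail.am]
  have hvv : Vtx S.P (ty ρ (m - 1)) (w.redv v) := by
    have := hwalk.vtx (by omega) (Nat.zero_le m)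
    rw [← hwalk0]
    exact this
  have hvq : Vtx S.P (ty (ty ρ (m - 1)) m) (w.redv q) := by
    have := hwalk.vtx (by omega) (le_refl m)
    rw [← hwalkm]
    exact this
  have hrv : rk K (Set.range (w.redv v)) = m := by
    have := S.toSys.rk_vtx hvv
    omega
  have hrq : rk K (Set.range (w.redv q)) = m := by
    have := S.toSys.rk_vtx hvq
    omega
  -- `w2` is trivial on the closure of the residues of `v` and `q`
  have hfin2 : (Set.range (w.redv v) ∪ Set.range (w.redv q)).Finite :=
    (Set.finite_range _).union (Set.finite_range _)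
  have hT2 : w2.Triv (cl K (Set.range (w.redv v) ∪ Set.range (w.redv q))) := by
    apply st_PL1 K w.κ w2 _ hfin2
    · rintro b (⟨d, rfl⟩ | ⟨d, rfl⟩)
      · exact (hw2v d).1
      · exact (hw2 _ (hqs2 d)).1
    · have h1 := rk_union_le (K := K) (Set.finite_range (w.redv v)) (Set.finite_range (w.redv q))
      rw [Set.image_union, image_range, image_range]
      have h2 : 2 * m ≤ rk K (Set.range (w2.redv (w.redv v)) ∪
          Set.range (w2.redv (w.redv q))) := by rw [hvx2]; exact hxq3
      have h3 : rk K (Set.range (fun d => w2.red (w.redv v d)) ∪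
          Set.range (fun d => w2.red (w.redv q d)))
          = rk K (Set.range (w2.redv (w.redv v)) ∪ Set.range (w2.redv (w.redv q))) := rfl
      omega
  have haT2 : ∀ i ≤ m, ∀ d, w.redv (a i) d ∈
      cl K (Set.range (w.redv v) ∪ Set.range (w.redv q)) := by
    intro i hi d
    have h1 := hENDS K n m 1 S.toSys w.κ _ m (fun i => w.redv (a i)) le_rfl hwalk hnb i hi d
    have h2 : Set.range ((fun i => w.redv (a i)) 0) ∪ Set.range ((fun i => w.redv (a i)) m)
        = Set.range (w.redv v) ∪ Set.range (w.redv q) := by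
      change Set.range (w.redv (a 0)) ∪ Set.range (w.redv (a m)) = _
      rw [hwalk0, hwalkm]
    rw [h2] at h1
    exact h1
  -- the two `m`-walks
  have hA1 := FR0_walk w2 hT2 haT2 hwalk
  have hA2 := FR0_nb w2 hT2 haT2 hnb
  have hcw : IsWalk S.P (ty ρ (m - 1)) m (fun i => c (m - 1 + i)) :=
    htail.walk.shift (m - 1) (by omega)
  have hcn : NB m (fun i => c (m - 1 + i)) := FR0_sub_nb S hGNB htail (m - 1) m (by omega)
  have hcmem : ∀ i ≤ m, ∀ d, c (m - 1 + i) d ∈ cl K s := fun i hi d => hcs _ (by omega) d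
  have hC1 := FR0_walk w hgood.triv hcmem hcw
  have hC2 := FR0_nb w hgood.triv hcmem hcn
  have hcmem2 : ∀ i ≤ m, ∀ d, w.redv (c (m - 1 + i)) d ∈ cl K (w.red '' s) :=
    fun i hi d => hcs2 _ (by omega) d
  have hC3 := FR0_walk w2 hw2 hcmem2 hC1
  have hC4 := FR0_nb w2 hw2 hcmem2 hC2
  obtain ⟨-, huniq⟩ := S.toSys.unique (by omega) hA1 hC3 hA2 hC4
    (by
      change w2.redv (w.redv (a 0)) = w2.redv (w.redv (c (m - 1 + 0)))
      rw [hwalk0, hvx2, Nat.add_zero, htail.cen]) rfl
    (by
      change w2.redv (w.redv (a m)) = w2.redv (w.redv (c (m - 1 + m)))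
      rw [hwalkm, show m - 1 + m = 2 * m - 1 by omega])
  have hkey : w2.redv (w.redv (a (m - j))) = w2.redv (w.redv (c (2 * m - 1 - j))) := by
    have := huniq (m - j) (by omega)
    have h1 : w2.redv (w.redv (a (m - j))) = w2.redv (w.redv (c (m - 1 + (m - j)))) := this
    rw [show m - 1 + (m - j) = 2 * m - 1 - j by omega] at h1
    exact h1
  -- the pair of ends specializes to the pair of ends of a generic `(m-1)`-walk
  set E : Fin n ⊕ Fin n → w.κ := Sum.elim (w.redv (c (m - j))) (w.redv (a (m - j))) with hE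
  set F : Fin n ⊕ Fin n → L := Sum.elim (c (m - j)) (c (2 * m - 1 - j)) with hF
  have hcj : ∀ d, w.redv (c (m - j)) d ∈ w2.V := fun d => (hw2 _ (hcs2 _ (by omega) d)).1
  have haj : ∀ d, w.redv (a (m - j)) d ∈ w2.V := fun d => (hT2 _ (haT2 _ (by omega) d)).1
  have hEF : Spec K E F := by
    have h1 : Spec K E (fun i => w2.red (E i)) := by
      apply FR0_red_spec w2
      rintro (d | d)
      · exact hcj d
      · exact haj d
    have h2 : (fun i => w2.red (E i)) = fun i => w2.red (w.red (F i)) := by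
      funext i
      rcases i with d | d
      · rfl
      · exact congrFun hkey d
    have h3 : Conj K F (fun i => w.red (F i)) := by
      apply FR0_red_conj w hgood.triv
      rintro (d | d)
      · exact hcs _ (by omega) d
      · exact hcs _ (by omega) d
    have h4 : Conj K (fun i => w.red (F i)) (fun i => w2.red (w.red (F i))) := by
      apply FR0_red_conj w2 hw2 (fun i => w.red (F i))
      rintro (d | d)
      · exact hcs2 _ (by omega) d
      · exact hcs2 _ (by omega) d
    rw [h2] at h1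
    exact h1.trans (h3.trans h4).symm.spec
  have hFr : 2 * m ≤ rk K (Set.range F) + 1 := by
    have := FR0_sub_rk_ends S hGNB hENDS htail (m - j) (m - 1) (by omega) (by omega)
    rw [show m - j + (m - 1) = 2 * m - 1 - j by omega] at this
    rw [hF, Set.Sum.elim_range]
    omega
  -- types
  have hvc : Vtx S.P (ty ρ (m - j)) (w.redv (c (m - j))) :=
    (FR0_vtx w hgood.triv (hcs _ (by omega))).mp (htail.walk.vtx (by omega) (by omega))
  have hva : Vtx S.P (ty (ty ρ (m - j)) (m - 1)) (w.redv (a (m - j))) := by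
    have h1 : Vtx S.P (ty (ty ρ (m - 1)) (m - j)) (w.redv (a (m - j))) :=
      hwalk.vtx (by omega) (show m - j ≤ m by omega)
    rw [ty_ty] at h1 ⊢
    rw [Nat.add_comm (m - j) (m - 1)]
    exact h1
  -- the residue of `g_j`
  have hR : aeval E (D.R (ty ρ (m - j))) = 0 := by
    have h1 := PLB_red_aeval w (Sum.elim (c (m - j)) (a (m - j))) (by
      rintro (d | d)
      · exact (hgood.triv _ (hcs _ (by omega) d)).1
      · exact haV _ (by omega) d) (D.R (ty ρ (m - j)))
    have h2 : (fun i => w.red (Sum.elim (c (m - j)) (a (m - j)) i)) = E := by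
      funext i
      rcases i with d | d <;> rfl
    rw [h2] at h1
    rw [← h1.2]
    exact hzero
  have hEr : rk K (Set.range E) + 1 ≤ 2 * m := by
    by_contra hcon
    have h1 : rk K (Set.range E) ≤ 2 * m := by
      rw [hE, Set.Sum.elim_range]
      have h2 := rk_union_le (K := K) (Set.finite_range (w.redv (c (m - j))))
        (Set.finite_range (w.redv (a (m - j))))
      have h3 := S.toSys.rk_vtx hvc
      have h4 := S.toSys.rk_vtx hva
      omega
    refine D.nonvan w.κ (ty ρ (m - j)) (w.redv (c (m - j))) (w.redv (a (m - j))) hvc hva ?_ hR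
    rw [← Set.Sum.elim_range]
    rw [← hE]
    omega
  have hconj : Conj K F E := (hEF.conj_of_rk_le (by omega)).symm
  -- transport of the walk
  obtain ⟨θ, hθ⟩ := hCONJ K L w.κ (Fin n ⊕ Fin n) F E hconj
  have hends := FR0_sub_ends S hGNB hENDS htail (m - j) (m - 1) (by omega) (by omega)
  have hmem : ∀ i ≤ m - 1, ∀ d, c (m - j + i) d ∈ cl K (Set.range F) := by
    intro i hi d
    have := hends i hi d
    rw [show m - j + (m - 1) = 2 * m - 1 - j by omega] at this
    rw [hF, Set.Sum.elim_range]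
    exact this
  obtain ⟨b, hb, hb1, hb2⟩ := ZERO_transport θ hmem
    (htail.walk.shift (m - j) (r' := m - 1) (by omega))
    (FR0_sub_nb S hGNB htail (m - j) (m - 1) (by omega))
  refine ⟨b, hb1, hb2, ?_, ?_⟩
  · funext d
    have h1 := hb 0 (Nat.zero_le _) d ⟨c (m - j + 0) d, hmem 0 (Nat.zero_le _) d⟩ rfl
    rw [← h1]
    exact hθ (Sum.inl d) _ rfl
  · funext d
    have h1 := hb (m - 1) le_rfl d ⟨c (m - j + (m - 1)) d, hmem (m - 1) le_rfl d⟩ rfl
    rw [← h1]
    refine hθ (Sum.inr d) _ ?_
    change c (m - j + (m - 1)) d = c (2 * m - 1 - j) d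
    rw [show m - j + (m - 1) = 2 * m - 1 - j by omega]

end Pool.Agent.Helper92.GG
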